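import Mathlib
import Pool.Agent.NH34.BD.Gal

/-!
# One Frobenius torus of maximal rank reduces the Mumford-Tate conjecture to endomorphisms

Let `M i` be finitely many objects of the category of motives of André over a finitely generated field
`k` of characteristic zero, pure of weight `w i`.  They extend to a smooth model `U` of `k`; let `Γ` be
the fundamental group of `U` (a quotient of the absolute Galois group of `k`), `ρ i` the action of `Γ`
on the `ℓ`-adic realization of `M i`, `V` the direct sum of the realizations, and `𝔤` the Lie algebra
(over `ℚ_ℓ`) of the motivic Galois group of the direct sum `M` of the `M i`.  The property `Motivic ρ 𝔤`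
(structure `IsMotivic`) states the properties of `𝔤` which are used: it is a Lie algebra, it respects the
direct sum, it is reductive (trace form nondegenerate, completely reducible on `V`), it consists of all
endomorphisms which kill the tensors killed by `𝔤`, and these tensors are Tate tensors (fixed by a
subgroup of finite index of `Γ`).  Nothing is assumed on the type of the group, on the Hodge
numbers, or on the semisimplicity of the Galois action.

Let `s` be a closed point of `U`, with residue field the number field `F`; it induces a homomorphism
(again `s`) from the absolute Galois group of `F` to `Γ`, and `restrictTo ρ s` is the realization of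
the fibre at `s`.  (If `k = F` is a number field `Γ` is its Galois group and `s` the identity.)
Suppose that

* there are three primes `p ≠ ℓ`, unramified in `F`, such that the fibre has good reduction at the
  places above `p`, with Frobenius polynomials in `ℚ[X]` which are pure of weight `w i`;
* at ONE place `v₀`, above one of these primes `p₀`, the Frobenius torus has the maximal rank: there
  are `r` multiplicatively independent numbers among the Frobenius eigenvalues of the `M i`, and the
  rank of `𝔤` is at most `r`.  If there are several places `v` above `p₀` (so `F ≠ ℚ`) they are
  supposed to be independent: if a product of numbers `x v` in the groups generated by the quotients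
  `a / b` of the roots of the Frobenius polynomials at `v` is a root of unity, then all `x v` are roots
  of unity.

Theorem.  (1) `V` is semisimple for all subgroups of finite index of `Γ`.

(2) An endomorphism `X` of `V` kills all Tate tensors (in all spaces of tensors on `V` and its dual
space) if and only if it is in `𝔤` and commutes with all Tate endomorphisms, that is, with the
endomorphisms of `V` which commute with a subgroup of finite index of `Γ`.  So the Lie algebra of the
`ℓ`-adic monodromy group `G_ℓ(M)` is the centralizer in `𝔤` of the Tate endomorphisms: the Tate tensors
are generated, by the operations of linear algebra (as invariants of a reductive group), by the motivated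
classes and the Tate endomorphisms.

(3) The motivated Mumford-Tate conjecture for `M` at `ℓ`, `G_ℓ(M)° = G_mot(M)`, is equivalent to the Tate
conjecture for endomorphisms: all Tate tensors are killed by `𝔤` (are combinations of motivated classes)
if and only if all Tate endomorphisms commute with `𝔤` (are combinations of motivated endomorphisms over
finite extensions of `k`).

So under the condition on one Frobenius torus all Tate classes on all powers are motivated as soon as
the Tate classes in the tensor product of `M` and its dual are motivated.  This is a theorem for each
single `ℓ`.

In comparison: it is well known (Zarhin, Larsen and Pink, for abelian varieties, where semisimplicity and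
the Tate conjecture for endomorphisms are theorems of Faltings) that two reductive groups of the same
rank, one contained in the other, with the same centralizer coincide.  Here semisimplicity is not
assumed, but it is a part of the conclusion, and (2) holds without the Tate conjecture for
endomorphisms.  `MP_8f1292_ag.MaximalFrobeniusTorus` shows the semisimplicity and that the Lie algebra of
the Tate tensors is reductive of the same rank as `𝔤`; `MP_de8692_ag.MaximalTorusRegularUnipotents` needs
regular unipotent elements in the images of the Galois group; the criteria with all or most primes `ℓ`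
(zero-one laws) do not give the assertion for a given `ℓ`.

The proof.  Let `L` be the Lie algebra of the endomorphisms which preserve all subspaces stable
under a subgroup of finite index and kill all Tate tensors.  As in `MaximalFrobeniusTorus` (by the
`ℓ`-adic six exponentials theorem) the trace form is nondegenerate on `L`, the torus `t` of the
Frobenius element at `v₀` is contained in `L` and is its own centralizer in `𝔤`, and a subgroup of
finite index commutes with the centralizer of `L`.  Let `L'` be the centralizer in `𝔤` of the
centralizer of `L`.  If `L'` were greater than `L`, there would be a `t`-weight vector `x` of `L'`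
orthogonal to `L`, of weight `β`.  The weight `β` is in the group generated by the roots of `L`
(otherwise an element of the torus which is a character of this group commutes with `L` and not with
`x`).  Write `β` as the sum of roots `α` of `L` with a minimal number of summands.  Then the root vector
of `-α` kills `x`, so that `β` is nonpositive on the coroot of `α`; as the trace form is positive on the
coroots, `β` is nonpositive on its own coroot, a contradiction.
-/

set_option autoImplicit false

namespace Pool.Agent.Results.MP_b8862a_ag.EndomorphismsSuffice

open NumberField IsDedekindDomain Polynomial Module Pool.Agent.Y114.TF Pool.Agent.Y114.GF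
  Pool.Agent.Y114.MU Pool.Agent.Y114.RM Pool.Agent.H204R3.GP Pool.Agent.NH34.BD

section general

variable {k : Type} [Field k] {V : Type} [AddCommGroup V] [Module k V] {Γ : Type} [Group Γ]
  (ρ : Representation k Γ V)

/-- `X` commutes with all Tate endomorphisms: with all endomorphisms of `V` which commute with a
subgroup of finite index of `Γ`. -/
def CommutesWithTate (X : End k V) : Prop := ∀ Y : End k V, CommFinIndex ρ Y → X * Y = Y * X

/-- `X` kills all Tate tensors. -/
def KillsAll (X : End k V) : Prop :=
  ∀ (m : ℕ) (φ : Tensor k V m), TateTensor ρ φ → KillsTensor X φ

/-- An endomorphism kills all Tate tensors if and only if it is in `𝔤` and commutes with all Tate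
endomorphisms. -/
def IsGenerated (𝔤 : Submodule k (End k V)) : Prop :=
  ∀ X : End k V, KillsAll ρ X ↔ X ∈ 𝔤 ∧ CommutesWithTate ρ X

/-- All elements of `𝔤` commute with all Tate endomorphisms. -/
def AllCommute (𝔤 : Submodule k (End k V)) : Prop := ∀ X ∈ 𝔤, CommutesWithTate ρ X

end general

section defs

variable {Γ : Type} [Group Γ] {ι : Type} {n : ι → ℕ} {ℓ : ℕ} [Fact ℓ.Prime]
  (ρ : Reps Γ n ℓ) (𝔤 : EndSpace n ℓ)

/-- An endomorphism kills all Tate tensors if and only if it is in `𝔤` and commutes with all Tate
endomorphisms. -/
def TateGeneratedByEndomorphisms : Prop := IsGenerated (sumRep ρ) 𝔤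

/-- The Tate conjecture for endomorphisms: `𝔤` commutes with all Tate endomorphisms. -/
def TateForEndomorphisms : Prop := AllCommute (sumRep ρ) 𝔤

end defs

theorem result {Γ : Type} [Group Γ] [TopologicalSpace Γ] [IsTopologicalGroup Γ] [CompactSpace Γ]
    {ι : Type} [Fintype ι] [DecidableEq ι] {n : ι → ℕ} {ℓ : ℕ} [Fact ℓ.Prime]
    -- the `ℓ`-adic realizations of the `M i`, and the Lie algebra of the motivic Galois group
    (ρ : Reps Γ n ℓ) (hρ : Conts ρ) (𝔤 : EndSpace n ℓ) (h𝔤 : Motivic ρ 𝔤)
    -- a point with values in the number field `F`
    {F : Type} [Field F] [NumberField F] (s : Gal(AlgebraicClosure F/F) →* Γ) (hs : Continuous s)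
    (w : ι → ℤ)
    -- three primes of good reduction
    (P : HeightOneSpectrum (𝓞 F) → ι → ℚ[X]) (T : Set ℕ) (hT3 : 3 ≤ T.encard)
    (hT : ∀ p ∈ T, p.Prime ∧ p ≠ ℓ ∧ UnramifiedIn F p)
    (hP : ∀ p ∈ T, ∀ v, Above v p → ∀ i, GoodReduction (restrictTo ρ s) i (w i) v (P v i))
    -- one Frobenius torus of maximal rank
    (p₀ : ℕ) (hp₀ : p₀ ∈ T) (hind : IndependentPlaces P p₀)
    (v₀ : HeightOneSpectrum (𝓞 F)) (hv₀ : Above v₀ p₀)
    (r : ℕ) (hr : IndepRoots r (Set.range (P v₀))) (hrank : RankLE 𝔤 r) :
    Semisimple ρ ∧ TateGeneratedByEndomorphisms ρ 𝔤 ∧
      (TateTensorsOf ρ 𝔤 ↔ TateForEndomorphisms ρ 𝔤) := by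
  obtain ⟨h1, h2⟩ := gal_main inputs inputs2 ρ hρ s hs 𝔤 h𝔤 P T hT3 hT
    (fun p hp v hv => goodPlace_of _ (hP p hp v hv)) hp₀ hind hv₀ r (independentRoots_range hr) hrank
  refine ⟨h1, fun X => ⟨fun hX => ⟨?_, ?_⟩, fun hX => h2 X hX.1 hX.2⟩, fun h => ?_, fun h => ?_⟩
  · exact IsMotivic.algebraic h𝔤 X fun m φ hφ => hX m φ (IsMotivic.tate h𝔤 m φ hφ)
  · rintro Y ⟨Δ, hΔ, hY⟩
    exact tate_comm (sumRep ρ) hX hΔ hY
  · rintro X hX Y ⟨Δ, hΔ, hY⟩
    exact tate_comm (sumRep ρ) (fun m φ hφ => (h m φ).1 hφ X hX) hΔ hY
  · exact fun m φ => ⟨fun hφ X hX => h2 X hX (h X hX) m φ hφ, IsMotivic.tate h𝔤 m φ⟩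

end Pool.Agent.Results.MP_b8862a_ag.EndomorphismsSuffice
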