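import Pool.Agent.NH56.HY.Main

/-!
# The Mumford-Tate conjecture for hyper-Kähler varieties in all degrees

**Theorem.** Let `X i` be finitely many projective hyper-Kähler varieties, of arbitrary deformation
types, and let `N` be an arbitrary further motive, over a finitely generated field of characteristic
zero. If the Mumford-Tate conjecture holds for the direct sum of all `H^2(X i)` and of `N`, then it holds
for the direct sum of the full cohomologies `H^*(X i)` (all degrees, odd and even) and of `N`.

The Mumford-Tate conjecture for `H^2` is a theorem of André (if `b₂ ≠ 3`); by Commelin it also holds for
the direct sum of all `H^2(X i)` and of any abelian motive which satisfies it. In higher degrees the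
conjecture was known for the four known deformation types of hyper-Kähler varieties, and for
hyper-Kähler varieties whose motive is abelian (Floccari, Soldatenkov). No assumption of this kind is
made here.

**The conjecture.** It is stated in terms of Lie algebras: the Lie algebra of the image of the Galois
group (`LieImage`) is the extension to `ℚ_ℓ` of the Lie algebra of the Mumford-Tate group (`mtLie`, the
smallest rational Lie algebra whose extension to `ℂ` contains the Hodge operator `D`, which acts as `p` on
the classes of type `(p, q)`). As these Lie algebras are algebraic and reductive, this is the equality of
the Mumford-Tate group with the connected component of the Zariski closure of the image of the Galois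
group, and semisimplicity follows.

**The data.** `X i : Coh (ι i)` is the rational cohomology, with the form `q` of Beauville, Bogomolov and
Fujiki, the action `δ` of the Lie algebra `so(q)` of Looijenga, Lunts and Verbitsky, and the Hodge
decomposition; `IsHyperKahler` lists the properties which are used: `δ` is a semisimple action, natural in
degree two, its trace form is a multiple of the natural one, and the operator `(p - q) / 2` is in `so(q)`
(Verbitsky). `ρ i` is the `ℓ`-adic cohomology, a representation of the Galois group `Γ` of a finitely
generated field (or of the fundamental group of a smooth model over which everything extends), and `N` is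
the `ℓ`-adic realization of the further motive, `D'` its Hodge operator. `s : Gal(K) → Γ` is the
specialization to a number field `K`, that is to a closed point of the model, such that the image of the
Galois group does not change: such points exist, by a theorem of Serre. (If the varieties are defined
over `K`, take `Γ = Gal(K)` and for `s` the identity.) `IsRealization` lists the properties of the
specialized `ℓ`-adic cohomology which are used. These are: the Galois group acts by ring automorphisms
(and so respects `q` and `δ`); for the places `v` of degree one outside of a finite set the
characteristic polynomials of the Frobenius elements have integral coefficients, and roots of absolute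
value `p ^ (j / 2)` (Deligne); their Newton polygons lie above the Hodge polygons (Mazur, Berthelot and
Ogus); the Lie algebra of the inertia groups at `ℓ` is determined by an operator which is conjugate to
the Hodge operator (Sen, Faltings).

**The proof.** Let `σ` be a Frobenius element at a place where `H^2` is ordinary; such elements are dense
in an open subgroup (the argument of Serre, Katz and Ogus). The valuations of the eigenvalues of `σ` give
an operator `Φ` on `H^*(X)`. It normalizes `so(q)`, so `Φ = Y + Z`, with `Y` from the Lie algebra
`gso(q)` (as in degree two) and `Z` commuting with `so(q)`. The sum of the squares of the slopes of the
Newton polygon is at most that of the Hodge polygon, by convexity; the trace form of `H^*` is a multiple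
of that of `H^2`, and in degree two there is equality. So the trace of `Z ^ 2` is at most `0`, and it
follows that `Z = 0`, the eigenvalues of `Z` being real. So all eigenvalues of `σ` on the commutant `E`
of `so(q)` are units at all places, and by the theorem of Kronecker they are roots of unity. By the
theorem of Kolchin an open subgroup of the Galois group acts unipotently on `E`; additive characters of
this group are unramified at `ℓ`, by the theorem of Sen, and elsewhere, and there are none by finiteness
of class numbers. So an open subgroup commutes with `E`, hence is contained in the associative algebra
generated by `so(q)` and the degree, and the determinants on the images of the idempotents of `E` show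
that its Lie algebra is contained in the image of `gso(q)`. The theorem follows by comparing with degree
two.

All parts of this proof are carried out in Lean for the data above, including the existence of Frobenius
elements of degree one in every nonempty open subset of the Galois group (theorem of Chebotarev) and the
vanishing of everywhere unramified additive characters (the inequality `[L : F] ≤ h(F)` for everywhere
unramified cyclic extensions, by the Herbrand quotient of the units).
-/

set_option autoImplicit false

namespace Pool.Agent.Results.MP_b8862a_ag.HyperKahlerAllDegrees

open Matrix Polynomial NumberField IsDedekindDomain Pool.Agent.NH56.HY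

/-- **The Mumford-Tate conjecture for hyper-Kähler varieties in all degrees.** Let `X i` be the
cohomologies of finitely many projective hyper-Kähler varieties, with `ℓ`-adic cohomologies `ρ i`, and let
`N` be another representation of `Γ`, with a Hodge operator `D'`. If the Mumford-Tate conjecture holds
for the direct sum of all `H^2(X i)` and `N`, then it holds for the direct sum of all `H^*(X i)` and
`N`. -/
theorem result (K : Type) [Field K] [NumberField K] (ℓ : ℕ) [Fact ℓ.Prime]
    -- the hyper-Kähler varieties
    (I : Type) [Fintype I] [DecidableEq I] (ι : I → Type) [∀ i, Fintype (ι i)]
    [∀ i, DecidableEq (ι i)] (X : ∀ i, Coh (ι i)) (hX : ∀ i, IsHyperKahler (X i))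
    -- the other motive: its Hodge operator
    (m : Type) [Fintype m] [DecidableEq m] (D' : Matrix m m ℂ)
    -- the `ℓ`-adic realizations
    (Γ : Type) [Group Γ] (ρ : ∀ i, Γ →* Matrix (ι i) (ι i) ℚ_[ℓ]) (N : Γ →* Matrix m m ℚ_[ℓ])
    -- the specialization to the number field `K`, without change of the image
    (s : GK K →* Γ) (hs : ∀ g, ∃ h, (∀ i, ρ i (s h) = ρ i g) ∧ N (s h) = N g)
    (hN : Continuous (N.comp s)) (S : Finset ℕ) (χ : GK K →* ℚ_[ℓ])
    (Pol : I → HeightOneSpectrum (𝓞 K) → ℕ → ℤ[X])
    (hρ : ∀ i, IsRealization (X i) S χ (Pol i) ((ρ i).comp s))
    -- the conjecture in degree two
    (hMT : MumfordTate (fromBlocks (blockDiagonal' fun i => blk (X i).deg 2 (X i).D) 0 0 D')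
      (fun g => fromBlocks (blockDiagonal' fun i => blk (X i).deg 2 (ρ i g)) 0 0 (N g))) :
    MumfordTate (fromBlocks (blockDiagonal' fun i => (X i).D) 0 0 D')
      (fun g => fromBlocks (blockDiagonal' fun i => ρ i g) 0 0 (N g)) :=
  Pool.Agent.NH56.HY.main K ℓ I ι X S χ Pol m D' Γ s ρ N (cft K ℓ) hX hρ hN hs hMT

end Pool.Agent.Results.MP_b8862a_ag.HyperKahlerAllDegrees
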