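import Pool.Agent.NH34.Cmp.Fin

/-!
# The zero-one law for the conjecture of Mumford and Tate

Let `X` be a smooth projective variety over a finitely generated subfield of the complex numbers. The
conjecture of Mumford and Tate for `X` says that the same classes on the powers of `X` are Tate classes
(invariant under an open subgroup of the Galois group, after a Tate twist) and linear combinations of
Hodge classes with coefficients in `ℚ_ℓ`. (The Mumford-Tate group is reductive, so it is determined by
its invariants on the cohomology of the powers of `X`; the same is true for the connected component of
the Zariski closure of the image of the Galois group if the latter is reductive.) In general, neither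
of the two inclusions is known.

*Theorem.* (1) There are two possibilities. Either all Hodge classes on all powers of `X` are Tate
classes; or the number of linearly independent classes on `X ^ n` which are Hodge classes and Tate
classes is negligible in comparison with the number of linearly independent Hodge classes on `X ^ n`,
for large `n`.

(2) Either all Tate classes on all powers of `X` are linear combinations of Hodge classes, and the
intersection forms on the spaces of the Tate classes are nondegenerate; or the number of linearly
independent classes on `X ^ n` which are Hodge classes and Tate classes is negligible in comparison with
the number of linearly independent Tate classes on `X ^ n`.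

So if one Hodge class on one power of `X` is not a Tate class then almost no Hodge classes are Tate
classes (in particular, almost no Hodge classes are motivated), and if one Tate class is not a linear
combination of Hodge classes then almost no Tate classes are linear combinations of Hodge classes. And
if, for one number `N` and for infinitely many `n`, at least one `N`-th of the Hodge classes on
`X ^ n`, and for infinitely many `n` at least one `N`-th of the Tate classes, are Hodge classes and Tate
classes, then the conjecture of Mumford and Tate holds for `X`.

The classes which are Hodge classes and Tate classes are counted in the strongest possible sense, by the
rank `commonRank` of the intersection form on the space of all `ℓ`-adic Tate classes which are linear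
combinations of Hodge classes. It is at least the number `hodgeTateNum` of the linearly independent
rational Hodge classes which are Tate classes, and so at least the number `motNum` of the
linearly independent motivated classes (André).

`k` is the algebraic closure of the finitely generated field, `T` is the singular cohomology with the
Hodge decomposition, `W` the `ℓ`-adic cohomology with the action `G` of the Galois group `Γ`, and `C` is
the comparison isomorphism of Artin. The properties of these theories which are used are listed in
`HodgeTheory`, `IsGaloisTheory`, `IsContinuousTheory` and `ArtinComparison`.

Idea: let `S` be the system of the classes which are Hodge classes and Tate classes. Suppose that some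
class on a power of `X` in a larger system `T'` does not have degree zero for the grading
by `p - q` (on the cohomology with complex coefficients, with respect to some embedding of `ℚ_ℓ`), or
that some element of the Galois group has infinite order on it, where all classes of `S` have degree zero,
respectively finite order. The external powers of this class generate, for every `N`, a chain of
`N` different spaces of classes of `T'` on some power of `X` which are stable under the correspondences in
`S`. By the growth law for the ranks of systems of correspondences the dimension of `T'` on
large powers of `X` is then at least `N - 1` times the rank of `S`. A class for which all elements of the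
Galois group have finite order is a Tate class, since matrices over `ℤ_ℓ` of finite order which are near
to the identity are equal to it; and a class which is of type `(j, j)` for all embeddings of `ℚ_ℓ` in the
complex numbers is a linear combination of Hodge classes.
-/

open CategoryTheory AlgebraicGeometry

universe u w

namespace Pool.Agent.Results.MP_b8862a_ag.MumfordTateZeroOne

open Pool.Agent.H914 Pool.Agent.H914.VarClass Pool.Agent.H914.VarClass.Obj
  Pool.Agent.H914.WeilCohomology Pool.Agent.NH34.Lin Pool.Agent.NH34.Gal Pool.Agent.NH34.Hdg
  Pool.Agent.NH34.Cmp Pool.Agent.NH34.Law
open Pool.Agent.Y133.Half (pw)

/-- **The zero-one law for the conjecture of Mumford and Tate.** -/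
theorem result {k : Type u} [Field k] {𝒱 : VarClass k} {ops : CycleOps 𝒱}
    (T : HodgeTheory ops) (W : WeilCohomology.{u, 0} ops) (C : ArtinComparison T.W W)
    {ℓ : ℕ} [Fact ℓ.Prime] (e : W.K ≃+* ℚ_[ℓ])
    {Γ : Type w} [Group Γ] [TopologicalSpace Γ] [IsTopologicalGroup Γ] [CompactSpace Γ]
    [TotallyDisconnectedSpace Γ] (G : ActionData W Γ) (hG : IsGaloisTheory G)
    (hc : IsContinuousTheory e G) (X : 𝒱.Obj) :
    (∀ n, motNum T (pw X n) ≤ hodgeTateNum C G (pw X n) ∧
      hodgeTateNum C G (pw X n) ≤ commonRank C G (pw X n)) ∧
    ((∀ n, HodgeIsTate C G (pw X n)) ∨
      Negligible (fun n => commonRank C G (pw X n)) (fun n => hodgeNum T (pw X n))) ∧
    ((∀ n, TateIsHodge C G (pw X n) ∧ TateIsPerfect G (pw X n)) ∨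
      Negligible (fun n => commonRank C G (pw X n)) (fun n => tateNum G (pw X n))) :=
  ⟨fun n => ⟨motNum_le hG C _, (zero_one hG hc C X).1 n⟩, (zero_one hG hc C X).2⟩

end Pool.Agent.Results.MP_b8862a_ag.MumfordTateZeroOne
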