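import Pool.Agent.NH25.PK.Cmp

set_option autoImplicit false

/-!
# The motivated Mumford-Tate conjecture for direct sums of motives of spin type

Let `M` be the direct sum of finitely many motives `M i` of André over a finitely generated field `k` of
complex numbers, pure of the same weight `w`. Let `V i = ℚ ^ (n i)` be their Betti realizations and
`𝔤` the Lie algebra of the motivic Galois group of `M` (over `ℂ`); it acts on the sum `V` of the `V i`. The
conjecture says that

1. `MT(V) = G_mot(M)`: the Hodge tensors (in any number of variables, in `V` and its dual space) are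
   exactly the tensors killed by `𝔤` (`AllHodge`; both groups are connected and reductive), and
2. `G_mot(M) ⊗ ℚ_ℓ` is the identity component of the `ℓ`-adic monodromy group, up to the group of
   connected components of `G_mot`: the representation of the Galois group `Γ` of `k` on `V ⊗ ℚ_ℓ` is
   semisimple and its Tate tensors (fixed by a subgroup of finite index) are exactly the tensors killed
   by `𝔤 ⊗ ℚ_ℓ` (`Semisimple` and `AllTate`).

The motive `M` is of **spin type** (`SpinType`) if `V ⊗ ℂ` is a direct sum of spaces `e_i (V ⊗ ℂ)` and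
`𝔤 ⊗ ℂ` is the direct sum of orthogonal Lie algebras `so(r_i)`, `r_i = 3` or `r_i ≥ 6`, and of the
scalars if `w ≠ 0`, such that `so(r_i)` acts on the `i`-th space by a sum of spin
representations: it is spanned by the products of two different generators of a Clifford algebra with
`r_i` generators acting on the `i`-th space, and acts by zero on the others.

**Theorem.** The motivated Mumford-Tate conjecture holds for a motive `M` of spin type (and then for all
motives in the tannakian category generated by `M`) if and only if the `ℓ`-adic realization is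
semisimple and both conjectures are true for the endomorphisms of `M`: the endomorphisms of the Hodge
structure `V`, and the endomorphisms of `V ⊗ ℚ_ℓ` which commute with a subgroup of finite index
of `Γ`, commute with the motivic Galois group.

So all Hodge and Tate classes on all tensor powers are reduced to those in `M ⊗ M^∨`. Examples with
`r_i = 3` are motives of rank two without complex multiplication: the motives of elliptic curves and of
modular forms of weight `k ≥ 2` (with coefficients, after a restriction of scalars). Examples with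
`r_i ≥ 6` are the motives `h^1` of Kuga-Satake varieties of K3 surfaces, hyperkähler varieties and
cubic fourfolds, and the motives with such Galois groups in higher weights. The numbers `r_i` may be
equal, and there is no exception for `so(8)`, in spite of the triality automorphisms.

The theorem SpinMotives (MP_bbcdf5_ag) in the starting files is about the second equality, for one Clifford
algebra acting on the whole space (tensor products of spin representations, all `r_i ≥ 6`) instead of
direct sums.

## Proof

Let `𝔥` be a Lie subalgebra of `𝔰 = ⊕ so(r_i)` which generates the same associative algebra of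
endomorphisms. Then `𝔥 = 𝔰` (`Pool.Agent.NH25.PK.all2`): the image in `so(r_i)` is everything
(for `r_i ≥ 6` this is a theorem of the starting library), and by the lemma of Goursat, Kolchin and Ribet one
has to exclude that the image of `𝔥` in some `so(r_i) ⊕ so(r_j)` is the graph of an isomorphism `φ`. In this
case there is a nonzero map `T` from the `i`-th space to the `j`-th one with `T x = φ(x) T`, which
contradicts the hypothesis on the associative algebra: let `f` be the skew matrix of the image under `φ`
of a product of two generators. Contractions of the relation `ad(f) ^ 3 = - ad(f)` show that `f` has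
rank two, or `r_i = 8` and `4 f ^ 2 = -1` (triality); in the second case the square of the
image is `-1` on a half-spin representation, and this carries over to all products of two
generators, so that the relations of the Clifford algebra hold on the half-spin representation.

This is applied to the Lie algebra generated by the rational components of the operator `D`, which acts by
`p - q` on the part of type `(p, q)`: it acts semisimply since the polarization is definite on sub-Hodge
structures, and so it generates the same associative algebra as `𝔤` if the endomorphisms of the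
Hodge structure commute with `𝔤`. And it is applied to the Lie algebra of the endomorphisms
which kill all Tate tensors.
-/

open Module TensorProduct

noncomputable section

namespace Pool.Agent.Results.MP_b8862a_ag.SumsOfSpinMotives

open Pool.Agent.Y114.TF Pool.Agent.Y114.RM Pool.Agent.H204R3.GP Pool.Agent.R913.Adj

/-! ### The Hodge structure -/

section hodge

variable {H : Type} [AddCommGroup H] [Module ℚ H]

/-- The complex vector space `ℂ ⊗ H`. -/
abbrev Cx (H : Type) [AddCommGroup H] [Module ℚ H] : Type := ℂ ⊗[ℚ] H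

/-- The complex conjugation on `ℂ ⊗ H`. -/
def conj : Cx H →ₗ[ℚ] Cx H := LinearMap.rTensor H (Complex.conjAe.toLinearMap.restrictScalars ℚ)

/-- The bilinear extension of the form `ψ` to `ℂ ⊗ H`. -/
def formC (ψ : LinearMap.BilinForm ℚ H) : LinearMap.BilinForm ℂ (Cx H) := ψ.baseChange ℂ

/-- The operator `D` on `ℂ ⊗ H` is the direct sum of the scalars `p - q = 2 p - w` (`p + q = w`) on the parts
of type `(p, q)`, the eigenspaces. -/
def HasTypes (w : ℤ) (D : End ℂ (Cx H)) : Prop :=
  (⨆ a : ℤ, D.eigenspace (a : ℂ)) = ⊤ ∧ ∀ a : ℤ, D.eigenspace (a : ℂ) ≠ ⊥ → Even (a - w)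

/-- The complex conjugation exchanges the parts of type `(p, q)` and `(q, p)`. -/
def IsReal (D : End ℂ (Cx H)) : Prop := ∀ x, D (conj x) = -conj (D x)

/-- The form is symmetric for even `w` and alternating for odd `w`. -/
def HasParity (w : ℤ) (ψ : LinearMap.BilinForm ℚ H) : Prop :=
  ∀ u v, ψ u v = if Even w then ψ v u else -ψ v u

/-- The form is a morphism of Hodge structures: the parts of type `(p, q)` and `(p', q')` are orthogonal
unless `p - q + p' - q' = 0`. -/
def IsMorphism (D : End ℂ (Cx H)) (B : LinearMap.BilinForm ℂ (Cx H)) : Prop :=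
  ∀ x y, B (D x) y = -B x (D y)

/-- The form is positive: `i ^ (p - q) B(x, x̄) > 0` for `x ≠ 0` of type `(p, q)`. -/
def IsPositive (D : End ℂ (Cx H)) (B : LinearMap.BilinForm ℂ (Cx H)) : Prop :=
  ∀ a : ℤ, ∀ x ∈ D.eigenspace (a : ℂ), x ≠ 0 → 0 < (Complex.I ^ a * B x (conj x)).re

/-- A rational Hodge structure of weight `w` on `H` with a polarization `ψ`. The Hodge structure is given
by the operator `D` which acts by `p - q` on the part of type `(p, q)`. -/
def IsPolarized (w : ℤ) (D : End ℂ (Cx H)) (ψ : LinearMap.BilinForm ℚ H) : Prop :=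
  HasTypes w D ∧ IsReal D ∧ HasParity w ψ ∧ IsMorphism D (formC ψ) ∧ IsPositive D (formC ψ)

/-- The `ℚ`-linear map `π ⊗ 1 : ℂ ⊗ H → H`, for a linear form `π` on the rational vector space `ℂ`. -/
def part (π : ℂ →ₗ[ℚ] ℚ) : Cx H →ₗ[ℚ] H :=
  (TensorProduct.lid ℚ H).toLinearMap ∘ₗ LinearMap.rTensor H π

/-- The component `(π ⊗ 1) D(1 ⊗ x)` of the complex endomorphism `D` of `ℂ ⊗ H`, for a linear form `π` on
the rational vector space `ℂ`. It is a rational endomorphism. If `D = ∑ c_k ⊗ D_k` with numbers `c_k` which
are linearly independent over `ℚ`, these are the linear combinations of the `D_k`. -/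
def component (π : ℂ →ₗ[ℚ] ℚ) (D : End ℂ (Cx H)) : End ℚ H :=
  part π ∘ₗ D.restrictScalars ℚ ∘ₗ TensorProduct.mk ℚ ℂ H 1

/-- A rational tensor (a multilinear form in `m` variables from the sum of `H` and its dual space) is a
Hodge tensor: it is of type `(0, 0)`, that is, it is killed by `D` (by its rational components) and it has
weight zero (it is killed by the scalars, if `w ≠ 0`). -/
def IsHodge (w : ℤ) (D : End ℂ (Cx H)) {m : ℕ} (φ : Tensor ℚ H m) : Prop :=
  (∀ π, KillsTensor (component π D) φ) ∧ (w ≠ 0 → KillsTensor (1 : End ℚ H) φ)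

end hodge

/-! ### Lie algebras, tensors and endomorphisms -/

section tensors

variable {k V : Type} [Field k] [AddCommGroup V] [Module k V]

/-- The tensor `φ` is killed by `𝔤`. -/
def Killed (𝔤 : Submodule k (End k V)) {m : ℕ} (φ : Tensor k V m) : Prop := ∀ X ∈ 𝔤, KillsTensor X φ

/-- The endomorphism `P` commutes with `𝔤`. -/
def Commutes (𝔤 : Submodule k (End k V)) (P : End k V) : Prop := ∀ X ∈ 𝔤, X * P = P * X

/-- The space `𝔤` is closed under the bracket. -/
def IsClosed (𝔤 : Submodule k (End k V)) : Prop := ∀ X ∈ 𝔤, ∀ Y ∈ 𝔤, X * Y - Y * X ∈ 𝔤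

/-- Every endomorphism which kills all tensors killed by `𝔤` is in `𝔤`. -/
def IsAlgebraic (𝔤 : Submodule k (End k V)) : Prop :=
  ∀ X, (∀ (m : ℕ) (φ : Tensor k V m), Killed 𝔤 φ → KillsTensor X φ) → X ∈ 𝔤

/-- The Tate tensors of the representation (fixed by a subgroup of finite index) are exactly the tensors
killed by `𝔤`. -/
def TateKilled {Γ : Type} [Group Γ] (ρ : Representation k Γ V) (𝔤 : Submodule k (End k V)) : Prop :=
  ∀ (m : ℕ) (φ : Tensor k V m), TateTensor ρ φ ↔ Killed 𝔤 φ

/-- The endomorphisms which commute with a subgroup of finite index of `Γ` commute with `𝔤`. -/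
def TateCommutes {Γ : Type} [Group Γ] (ρ : Representation k Γ V) (𝔤 : Submodule k (End k V)) : Prop :=
  ∀ P : End k V, (∃ Δ : Subgroup Γ, Δ.FiniteIndex ∧ ∀ γ ∈ Δ, P * ρ γ = ρ γ * P) → Commutes 𝔤 P

end tensors

section betti

variable {H : Type} [AddCommGroup H] [Module ℚ H]

/-- The properties of the Lie algebra `𝔤` of the motivic Galois group of `M_ℂ`: it is determined by the
tensors which it kills (the motivated classes, up to finite groups), and these are Hodge tensors. -/
def IsBettiMotivic (w : ℤ) (D : End ℂ (Cx H)) (𝔤 : Submodule ℚ (End ℚ H)) : Prop :=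
  IsClosed 𝔤 ∧ IsAlgebraic 𝔤 ∧ ∀ (m : ℕ) (φ : Tensor ℚ H m), Killed 𝔤 φ → IsHodge w D φ

/-- The equality `MT(V) = G_mot(M)` (of the identity components): the Hodge tensors are the tensors killed
by `𝔤`. -/
def AllHodge (w : ℤ) (D : End ℂ (Cx H)) (𝔤 : Submodule ℚ (End ℚ H)) : Prop :=
  ∀ (m : ℕ) (φ : Tensor ℚ H m), IsHodge w D φ ↔ Killed 𝔤 φ

/-- The endomorphisms of the Hodge structure commute with `𝔤`. -/
def EndHodge (D : End ℂ (Cx H)) (𝔤 : Submodule ℚ (End ℚ H)) : Prop :=
  ∀ P : End ℚ H, P.baseChange ℂ * D = D * P.baseChange ℂ → Commutes 𝔤 P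

end betti

/-! ### The `ℓ`-adic realization -/

section tate

variable {ι : Type} (n : ι → ℕ) (ℓ : ℕ) [Fact ℓ.Prime]

/-- The direct sum of the Betti realizations `ℚ ^ (n i)`. -/
abbrev Betti : Type := ∀ i, Fin (n i) → ℚ

/-- The direct sum of the `ℓ`-adic realizations `ℚ_ℓ ^ (n i)`. -/
abbrev Ladic : Type := ∀ i, Fin (n i) → ℚ_[ℓ]

/-- Representations of `Γ` on the spaces `ℚ_ℓ ^ (n i)`. -/
abbrev Reps (Γ : Type) [Group Γ] : Type := ∀ i, Representation ℚ_[ℓ] Γ (Fin (n i) → ℚ_[ℓ])

/-- The standard basis of the sum of the spaces `K ^ (n i)`. -/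
def std [Fintype ι] [DecidableEq ι] (K : Type) [Field K] : Basis (Σ i, Fin (n i)) K (∀ i, Fin (n i) → K) :=
  Pi.basis fun i => Pi.basisFun K (Fin (n i))

/-- The matrix of an endomorphism with respect to a basis. -/
def mat {K κ V : Type} [Field K] [Fintype κ] [DecidableEq κ] [AddCommGroup V] [Module K V]
    (b : Basis κ K V) (X : End K V) : Matrix κ κ K := LinearMap.toMatrix b b X

/-- The endomorphism with a given matrix with respect to a basis. -/
def ofMat {K κ V : Type} [Field K] [Fintype κ] [DecidableEq κ] [AddCommGroup V] [Module K V]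
    (b : Basis κ K V) (A : Matrix κ κ K) : End K V := Matrix.toLin b b A

variable [Fintype ι] [DecidableEq ι] {n}

/-- The endomorphism of the `ℓ`-adic realization with the same matrix as the endomorphism `X` of the Betti
realization. -/
def ext (X : End ℚ (Betti n)) : End ℚ_[ℓ] (Ladic n ℓ) :=
  ofMat (std n ℚ_[ℓ]) ((mat (std n ℚ) X).map (algebraMap ℚ ℚ_[ℓ]))

/-- The space `𝔤 ⊗ ℚ_ℓ` of endomorphisms of the `ℓ`-adic realization. -/
def adic (𝔤 : Submodule ℚ (End ℚ (Betti n))) : Submodule ℚ_[ℓ] (End ℚ_[ℓ] (Ladic n ℓ)) :=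
  Submodule.span ℚ_[ℓ] {Y | ∃ X ∈ 𝔤, Y = ext ℓ X}

variable {ℓ} {Γ : Type} [Group Γ] (ρ : Reps n ℓ Γ) (𝔤 : Submodule ℚ_[ℓ] (End ℚ_[ℓ] (Ladic n ℓ)))

/-- The representations are continuous. -/
def Conts [TopologicalSpace Γ] : Prop := ∀ i, Continuous fun g => LinearMap.toMatrix' (ρ i g)

/-- Some element of `Γ` acts purely of the weight `w` on all the representations: its characteristic
polynomials are rational, with all roots of absolute value `q ^ (w / 2)` for some `q > 1`. -/
def Pure (w : ℤ) : Prop := ∃ γ : Γ, ActsPurely ρ (fun _ => w) γ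

/-- The direct sum is semisimple as a representation of every subgroup of finite index. -/
def Semisimple : Prop := FiniteIndexSemisimple (sumRep ρ)

/-- The equality of `G_mot(M) ⊗ ℚ_ℓ` and the `ℓ`-adic monodromy group (of the identity components): the
representation is semisimple and the Tate tensors are the tensors killed by `𝔤`. -/
def AllTate : Prop := Semisimple ρ ∧ TateKilled (sumRep ρ) 𝔤

/-- The endomorphisms which commute with a subgroup of finite index of `Γ` commute with `𝔤`. -/
def EndTate : Prop := TateCommutes (sumRep ρ) 𝔤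

end tate

/-! ### The spin type -/

section types

/-- The images of the endomorphisms `e i` form a direct sum decomposition of `H`, and the `F i a` are the
generators of a Clifford algebra which acts on the image of `e i` (and by zero on the others). -/
def IsClifford {H : Type} [AddCommGroup H] [Module ℂ H] {m : ℕ} {r : Fin m → ℕ}
    (e : Fin m → End ℂ H) (F : ∀ i, Fin (r i) → End ℂ H) : Prop :=
  (∀ i, e i ≠ 0) ∧ (∀ i j, i ≠ j → e i * e j = 0) ∧ ∑ i, e i = 1 ∧
    (∀ i a, F i a * F i a = e i) ∧ (∀ i a, F i a * e i = F i a) ∧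
    ∀ i a b, a ≠ b → F i a * F i b = -(F i b * F i a)

/-- **Spin type.** The complex vector space `H` is the direct sum of the images of the projectors `e i`, and
the Lie algebra `𝔩` is the direct sum of orthogonal Lie algebras `so(r i)`, with `r i = 3` or `r i ≥ 6`,
and of the scalars if `w ≠ 0`. The algebra `so(r i)` is spanned by the products of two different
generators `F i a` of a Clifford algebra which acts on the image of `e i`. -/
def IsSpinSum {H : Type} [AddCommGroup H] [Module ℂ H] (𝔩 : Submodule ℂ (End ℂ H)) (w : ℤ) : Prop :=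
  ∃ (m : ℕ) (r : Fin m → ℕ) (e : Fin m → End ℂ H) (F : ∀ i, Fin (r i) → End ℂ H),
    (∀ i, r i = 3 ∨ 6 ≤ r i) ∧ IsClifford e F ∧
    𝔩 = Submodule.span ℂ {Y | ∃ i a b, a ≠ b ∧ Y = F i a * F i b} ⊔
      if w = 0 then ⊥ else Submodule.span ℂ {1}

/-- The motivic Lie algebra is of spin type, over the complex numbers. -/
def SpinType {H : Type} [AddCommGroup H] [Module ℚ H] (w : ℤ) (𝔤 : Submodule ℚ (End ℚ H)) : Prop :=
  IsSpinSum (Submodule.span ℂ {Y : End ℂ (Cx H) | ∃ X ∈ 𝔤, Y = X.baseChange ℂ}) w

end types

open Pool.Agent.NH25.PK in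
/-- **Theorem.** Let `M` be a direct sum of motives of weight `w`, of spin type. The motivated Mumford-Tate
conjecture holds for `M` if and only if the `ℓ`-adic realization of `M` is semisimple and the conjecture
holds for the endomorphisms of `M`. -/
theorem result {Γ : Type} [Group Γ] [TopologicalSpace Γ] [IsTopologicalGroup Γ] [CompactSpace Γ]
    {ι : Type} [Fintype ι] [DecidableEq ι] {n : ι → ℕ} {ℓ : ℕ} [Fact ℓ.Prime] [Algebra ℚ_[ℓ] ℂ]
    -- the Hodge structure
    (w : ℤ) (D : End ℂ (Cx (Betti n))) (ψ : LinearMap.BilinForm ℚ (Betti n))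
    (hD : IsPolarized w D ψ)
    -- the Galois representation
    (ρ : Reps n ℓ Γ) (hρ : Conts ρ) (hw : w ≠ 0 → Pure ρ w)
    -- the motivic Lie algebra
    (𝔤 : Submodule ℚ (End ℚ (Betti n))) (hB : IsBettiMotivic w D 𝔤)
    (hℓ : IsMotivic ρ (adic ℓ 𝔤)) (ht : SpinType w 𝔤) :
    (AllHodge w D 𝔤 ∧ AllTate ρ (adic ℓ 𝔤)) ↔
      (EndHodge D 𝔤 ∧ Semisimple ρ ∧ EndTate ρ (adic ℓ 𝔤)) := by
  have hP : Pol w D ψ := ⟨hD.1.1, hD.1.2, hD.2.1, hD.2.2.1, hD.2.2.2.1, hD.2.2.2.2⟩
  have hbc : (Submodule.span ℂ {Y : End ℂ (Cx (Betti n)) | ∃ X ∈ 𝔤, Y = X.baseChange ℂ}) =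
      bcS ℂ 𝔤 := by
    unfold bcS
    congr 1
    ext Y
    constructor
    · rintro ⟨X, hX, rfl⟩
      exact ⟨X, hX, rfl⟩
    · rintro ⟨X, hX, rfl⟩
      exact ⟨X, hX, rfl⟩
  have had : adic ℓ 𝔤 = Pool.Agent.NH25.PK.adic ℚ_[ℓ] 𝔤 := by
    unfold adic Pool.Agent.NH25.PK.adic
    congr 1
    ext Y
    constructor
    · rintro ⟨X, hX, rfl⟩
      exact ⟨X, hX, rfl⟩
    · rintro ⟨X, hX, rfl⟩
      exact ⟨X, hX, rfl⟩
  have hT : Typ (bcS ℂ 𝔤) w := by
    obtain ⟨m, r, e, F, h1, ⟨h2, h3, h4, h5, h5', h6⟩, h7⟩ := ht
    rw [hbc] at h7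
    exact ⟨m, r, e, F, h1, ⟨h2, h3, h4, h5, h5', h6⟩, h7⟩
  have hcmp : ∀ π, cmp π D ∈ 𝔤 := fun π => hB.2.1 _ fun m φ hφ => (hB.2.2 m φ hφ).1 π
  constructor
  · rintro ⟨h1, h2⟩
    exact ⟨hend_of fun m φ hφ => (h1 m φ).1 hφ, h2.1,
      Pool.Agent.R918.Ell.endTate_of_tate (sumRep ρ) h2.2⟩
  · rintro ⟨h1, h2, h3⟩
    refine ⟨fun m φ => ⟨fun hφ => ?_, fun hφ => hB.2.2 m φ hφ⟩, h2, ?_⟩
    · obtain ⟨m', r, e, F, hr, hF, hg⟩ := hT
      exact hP.tensor hB.1 hcmp h1 (hF.rig hr) hg hφ
    · have hT' : Typ (bcS ℂ (Pool.Agent.NH25.PK.adic ℚ_[ℓ] 𝔤)) w := hT.adic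
      rw [← had] at hT'
      obtain ⟨m', r, e, F, hr, hF, hg⟩ := hT'
      exact Pool.Agent.R918.Ell.tate_of_rig ρ hρ hℓ h2 h3 (hF.rig hr) w hw hg

end Pool.Agent.Results.MP_b8862a_ag.SumsOfSpinMotives
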